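import Pool.Agent.H458R5.Scheme

/-!
# A nonmeagre set of reals with few differences in small sets
-/

namespace Pool.Agent.H458R5

open Set Topology Cardinal

/-- The tuples which lie in a single translate of `D`. -/
def Tuples (n : ℕ) (D : Set ℝ) : Set (Fin n → ℝ) := {z | ∃ x : ℝ, ∀ j, z j - x ∈ D}

/-- Fewer than `𝔠` translates of small sets do not cover a countable intersection of dense open
sets. -/
theorem exists_avoid {U : ℕ → Set ℝ} (hU : ∀ k, IsOpen (U k)) (hU' : ∀ k, Dense (U k))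
    {D : ℕ → Set ℝ} {N : ℕ → ℕ} (hD : ∀ i, IsNowhereDense (Tuples (N i) (D i)))
    {S : Set ℝ} (hS : #S < 𝔠) : ∃ x, (∀ k, x ∈ U k) ∧ ∀ s ∈ S, ∀ i, x - s ∉ D i := by
  classical
  obtain ⟨f, hf1, hf2⟩ := exists_scheme hU hU' N hD
  by_contra hcon
  push Not at hcon
  have h1 : ∀ α, ∃ p : S × ℕ, f α - p.1 ∈ D p.2 := by
    intro α
    obtain ⟨s, hs, i, hi⟩ := hcon (f α) (hf1 α)
    exact ⟨(⟨s, hs⟩, i), hi⟩
  choose g hg using h1
  have h2 : ∀ p, (g ⁻¹' {p}).Finite := by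
    intro p
    by_contra hinf
    have hinf' : (g ⁻¹' {p}).Infinite := hinf
    let e := hinf'.natEmbedding
    refine hf2 p.2 (fun j => (e j).1) (fun j j' hjj => ?_) ⟨p.1, fun j => ?_⟩
    · exact Fin.val_injective (e.injective (Subtype.ext hjj))
    · have h3 : g (e j).1 = p := (e j).2
      have h4 := hg (e j).1
      rw [h3] at h4
      exact h4
  have h5 : #(ℕ → Bool) ≤ #(S × ℕ) * ℵ₀ :=
    mk_le_mk_mul_of_mk_preimage_le g fun p => (h2 p).countable.le_aleph0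
  have h6 : #(ℕ → Bool) = 𝔠 := by simp
  have h7 : #(S × ℕ) < 𝔠 := by
    rw [mk_prod, Cardinal.lift_id, Cardinal.lift_id, mk_nat]
    exact mul_lt_of_lt aleph0_le_continuum hS aleph0_lt_continuum
  rw [h6] at h5
  exact absurd h5 (not_le.2 (mul_lt_of_lt aleph0_le_continuum h7 aleph0_lt_continuum))

/-- there are at most `𝔠` open sets of reals -/
theorem mk_open_le : #{O : Set ℝ // IsOpen O} ≤ 𝔠 := by
  classical
  have hb := TopologicalSpace.isBasis_countableBasis ℝ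
  have hc : #(TopologicalSpace.countableBasis ℝ) ≤ ℵ₀ :=
    (TopologicalSpace.countable_countableBasis ℝ).le_aleph0
  have h1 : #{O : Set ℝ // IsOpen O} ≤ #(Set (TopologicalSpace.countableBasis ℝ)) := by
    refine mk_le_of_injective (f := fun O => {b | b.1 ⊆ O.1}) ?_
    intro O O' h
    refine Subtype.ext ?_
    rw [hb.open_eq_sUnion' O.2, hb.open_eq_sUnion' O'.2]
    congr 1
    ext b
    constructor
    · rintro ⟨hb1, hb2⟩
      have h2 : (⟨b, hb1⟩ : TopologicalSpace.countableBasis ℝ) ∈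
          {b : TopologicalSpace.countableBasis ℝ | b.1 ⊆ O.1} := hb2
      rw [show {b : TopologicalSpace.countableBasis ℝ | b.1 ⊆ O.1} =
        {b : TopologicalSpace.countableBasis ℝ | b.1 ⊆ O'.1} from h] at h2
      exact ⟨hb1, h2⟩
    · rintro ⟨hb1, hb2⟩
      have h2 : (⟨b, hb1⟩ : TopologicalSpace.countableBasis ℝ) ∈
          {b : TopologicalSpace.countableBasis ℝ | b.1 ⊆ O'.1} := hb2
      rw [← show {b : TopologicalSpace.countableBasis ℝ | b.1 ⊆ O.1} =
        {b : TopologicalSpace.countableBasis ℝ | b.1 ⊆ O'.1} from h] at h2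
      exact ⟨hb1, h2⟩
  refine h1.trans ?_
  rw [mk_set, ← two_power_aleph0]
  exact power_le_power_left two_ne_zero hc

/-- a sequence of open sets -/
abbrev Task := ℕ → {O : Set ℝ // IsOpen O}

theorem mk_task_le : #Task ≤ 𝔠 := by
  have h1 : #Task = #{O : Set ℝ // IsOpen O} ^ ℵ₀ := by simp [Task]
  rw [h1]
  calc #{O : Set ℝ // IsOpen O} ^ ℵ₀ ≤ 𝔠 ^ ℵ₀ := power_le_power_right mk_open_le
    _ = 𝔠 := continuum_power_aleph0

section

variable {Λ : Type} [LinearOrder Λ] [WellFoundedLT Λ] (task : Λ → Task) (D : ℕ → Set ℝ)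

/-- the next point -/
noncomputable def nxt (t : Task) (S : Set ℝ) : ℝ :=
  open Classical in
  if h : ∃ x, (∀ k, x ∈ (t k).1) ∧ ∀ s ∈ S, ∀ i, x - s ∉ D i then h.choose else 0

/-- the points -/
noncomputable def pnt : Λ → ℝ :=
  wellFounded_lt.fix fun γ ih => nxt D (task γ) {a | ∃ β, ∃ h : β < γ, ih β h = a}

theorem pnt_eq (γ : Λ) : pnt task D γ = nxt D (task γ) (pnt task D '' Iio γ) := by
  rw [pnt, WellFounded.fix_eq]
  congr 1
  ext a
  simp only [Set.mem_ofPred_eq, Set.mem_image, Set.mem_Iio, exists_prop]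

end

/-- **The nonmeagre set.** -/
theorem exists_set {D : ℕ → Set ℝ} {N : ℕ → ℕ} (hD : ∀ i, IsNowhereDense (Tuples (N i) (D i)))
    (hsymm : ∀ i x, x ∈ D i → -x ∈ D i) :
    ∃ X : Set ℝ, ¬ IsMeagre X ∧ ∀ x ∈ X, ∀ y ∈ X, x ≠ y → ∀ i, x - y ∉ D i := by
  classical
  let Λ := (𝔠 : Cardinal.{0}).ord.ToType
  have hΛ : #Λ = 𝔠 := Cardinal.mk_ord_toType _
  have hΛ2 : ∀ γ : Λ, #(Iio γ) < 𝔠 := fun γ => Cardinal.mk_Iio_toType_ord_lt γ
  have hsurj : ∃ task : Λ → Task, Function.Surjective task := by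
    have h1 : #Task ≤ #Λ := by rw [hΛ]; exact mk_task_le
    obtain ⟨e⟩ := h1
    have : Nonempty Task := ⟨fun _ => ⟨∅, isOpen_empty⟩⟩
    exact ⟨Function.invFun e, Function.invFun_surjective e.injective⟩
  obtain ⟨task, htask⟩ := hsurj
  let x : Λ → ℝ := pnt task D
  have hx : ∀ γ, (∀ k, Dense (task γ k).1) →
      (∀ k, x γ ∈ (task γ k).1) ∧ ∀ β < γ, ∀ i, x γ - x β ∉ D i := by
    intro γ hγ
    have h1 : #(pnt task D '' Iio γ) < 𝔠 := mk_image_le.trans_lt (hΛ2 γ)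
    have h2 := exists_avoid (fun k => (task γ k).2) hγ hD h1
    have h3 : x γ = h2.choose := by
      change pnt task D γ = _
      rw [pnt_eq, nxt, dif_pos h2]
    rw [h3]
    exact ⟨h2.choose_spec.1, fun β hβ i => h2.choose_spec.2 _ ⟨β, hβ, rfl⟩ i⟩
  refine ⟨{a | ∃ γ, (∀ k, Dense (task γ k).1) ∧ x γ = a}, fun hmeag => ?_, ?_⟩
  · rw [IsMeagre, mem_residual_iff] at hmeag
    obtain ⟨S, hS1, hS2, hS3, hS4⟩ := hmeag
    obtain ⟨V, hV⟩ := (hS3.insert Set.univ).exists_eq_range (Set.insert_nonempty _ _)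
    have hV' : ∀ k, IsOpen (V k) ∧ Dense (V k) := by
      intro k
      have h1 : V k ∈ insert Set.univ S := by rw [hV]; exact ⟨k, rfl⟩
      rcases h1 with h1 | h1
      · rw [h1]; exact ⟨isOpen_univ, dense_univ⟩
      · exact ⟨hS1 _ h1, hS2 _ h1⟩
    obtain ⟨γ, hγ⟩ := htask fun k => ⟨V k, (hV' k).1⟩
    have hγ' : ∀ k, Dense (task γ k).1 := fun k => by rw [hγ]; exact (hV' k).2
    have h2 : x γ ∈ ⋂₀ S := by
      intro O hO
      have h3 : O ∈ range V := by rw [← hV]; exact Or.inr hO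
      obtain ⟨k, rfl⟩ := h3
      have h4 := (hx γ hγ').1 k
      rw [hγ] at h4
      exact h4
    exact hS4 h2 ⟨γ, hγ', rfl⟩
  · rintro _ ⟨γ, hγ, rfl⟩ _ ⟨β, hβ, rfl⟩ hne i
    rcases lt_trichotomy β γ with h | h | h
    · exact (hx γ hγ).2 β h i
    · rw [h] at hne
      exact absurd rfl hne
    · intro h4
      have h5 := hsymm i _ h4
      rw [neg_sub] at h5
      exact (hx β hβ).2 γ h i h5

end Pool.Agent.H458R5
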