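import Pool.Agent.H458R5.Group

/-!
# Sets of lower box dimension less than `1 / 2` are thin
-/

namespace Pool.Agent.H458R5

open Set Topology MeasureTheory

/-- The lower box dimension of `K` is less than `1 / 2`: for some `s < 1 / 2` there are arbitrarily
small `δ > 0` such that `K` is covered by at most `δ ^ (-s)` closed intervals of length `δ`. -/
def LowerBoxDimLtHalf (K : Set ℝ) : Prop :=
  ∃ s : ℝ, s < 1 / 2 ∧ ∀ ε > 0, ∃ δ : ℝ, 0 < δ ∧ δ < ε ∧ ∃ F : Finset ℝ,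
    (F.card : ℝ) ≤ δ ^ (-s) ∧ K ⊆ ⋃ c ∈ F, Icc c (c + δ)

/-- The differences of tuples. -/
def Dif (K : Set ℝ) (m : ℕ) : Set (Fin m → ℝ) :=
  {w | ∃ a b : Fin (m + 1) → ℝ, (∀ j, a j ∈ K) ∧ (∀ j, b j ∈ K) ∧
    ∀ j : Fin m, w j = (a j.succ - b j.succ) - (a 0 - b 0)}

/-- A cover of the set of differences by cubes. -/
theorem volume_dif_le {K : Set ℝ} {m : ℕ} {δ : ℝ} {F : Finset ℝ}
    (hK : K ⊆ ⋃ c ∈ F, Icc c (c + δ)) :
    volume (closure (Dif K m)) ≤
      (F.card ^ (2 * (m + 1)) : ℕ) * ENNReal.ofReal (4 * δ) ^ m := by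
  classical
  let I := (Fin (m + 1) → F) × (Fin (m + 1) → F)
  let lo : I → (Fin m → ℝ) := fun p j =>
    ((p.1 j.succ : ℝ) - p.2 j.succ) - ((p.1 0 : ℝ) - p.2 0) - 2 * δ
  let box : I → Set (Fin m → ℝ) := fun p => Icc (lo p) (fun j => lo p j + 4 * δ)
  have h1 : Dif K m ⊆ ⋃ p, box p := by
    rintro w ⟨a, b, ha, hb, hw⟩
    have h2 : ∀ x ∈ K, ∃ c : F, (c : ℝ) ≤ x ∧ x ≤ c + δ := by
      intro x hx
      have h3 := hK hx
      simp only [mem_iUnion, mem_Icc, exists_prop] at h3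
      obtain ⟨c, hc, h4, h5⟩ := h3
      exact ⟨⟨c, hc⟩, h4, h5⟩
    choose c hc1 hc2 using fun j => h2 (a j) (ha j)
    choose d hd1 hd2 using fun j => h2 (b j) (hb j)
    refine mem_iUnion.2 ⟨(c, d), ?_⟩
    constructor
    · intro j
      have e1 := hc1 j.succ
      have e2 := hd2 j.succ
      have e3 := hc2 0
      have e4 := hd1 0
      have e5 := hw j
      simp only [lo]
      linarith
    · intro j
      have e1 := hc2 j.succ
      have e2 := hd1 j.succ
      have e3 := hc1 0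
      have e4 := hd2 0
      have e5 := hw j
      simp only [lo]
      linarith
  have h2 : IsClosed (⋃ p, box p) := isClosed_iUnion_of_finite fun p => isClosed_Icc
  have h3 : closure (Dif K m) ⊆ ⋃ p, box p := closure_minimal h1 h2
  have h4 : ∀ p, volume (box p) = ENNReal.ofReal (4 * δ) ^ m := by
    intro p
    rw [Real.volume_Icc_pi]
    simp
  calc volume (closure (Dif K m)) ≤ volume (⋃ p, box p) := measure_mono h3
    _ ≤ ∑ p, volume (box p) := measure_iUnion_fintype_le _ _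
    _ = (F.card ^ (2 * (m + 1)) : ℕ) * ENNReal.ofReal (4 * δ) ^ m := by
      simp only [h4, Finset.sum_const, nsmul_eq_mul, Finset.card_univ]
      congr 2
      simp only [I, Fintype.card_prod, Fintype.card_pi, Finset.prod_const, Finset.card_univ,
        Fintype.card_fin, Fintype.card_coe]
      ring

theorem thin_of_box {K : Set ℝ} (hK : LowerBoxDimLtHalf K) : Thin K := by
  obtain ⟨s, hs, hcov⟩ := hK
  -- the exponent
  obtain ⟨m, hm⟩ : ∃ m : ℕ, 0 < (m : ℝ) - 2 * s * (m + 1) := by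
    obtain ⟨m, hm⟩ := exists_nat_gt (2 * s / (1 - 2 * s))
    have h1 : 0 < 1 - 2 * s := by linarith
    refine ⟨m, ?_⟩
    rw [div_lt_iff₀ h1] at hm
    nlinarith
  refine thin_of (m := m) ?_
  change interior (closure (Dif K m)) = ∅
  have hzero : volume (closure (Dif K m)) = 0 := by
    set t : ℝ := (m : ℝ) - 2 * s * (m + 1) with ht
    have hlim : Filter.Tendsto (fun δ : ℝ => (4 : ℝ) ^ m * δ ^ t) (𝓝[>] 0) (𝓝 0) := by
      have h1 : Filter.Tendsto (fun δ : ℝ => δ ^ t) (𝓝[>] 0) (𝓝 0) := by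
        have h2 := (Real.continuousAt_rpow_const 0 t (Or.inr hm.le)).tendsto
        rw [Real.zero_rpow hm.ne'] at h2
        exact h2.mono_left nhdsWithin_le_nhds
      simpa using h1.const_mul ((4 : ℝ) ^ m)
    refine le_antisymm (ENNReal.le_of_forall_pos_le_add fun η hη _ => ?_) bot_le
    rw [zero_add]
    have h1 : ∀ᶠ δ in 𝓝[>] (0 : ℝ), (4 : ℝ) ^ m * δ ^ t < η :=
      hlim.eventually (gt_mem_nhds (by exact_mod_cast hη))
    obtain ⟨ε, hε, hε'⟩ := mem_nhdsGT_iff_exists_Ioo_subset.1 h1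
    obtain ⟨δ, hδ0, hδε, F, hF1, hF2⟩ := hcov ε hε
    have h2 : (4 : ℝ) ^ m * δ ^ t < η := hε' ⟨hδ0, hδε⟩
    refine (volume_dif_le hF2).trans ?_
    have h3 : ((F.card ^ (2 * (m + 1)) : ℕ) : ENNReal) * ENNReal.ofReal (4 * δ) ^ m =
        ENNReal.ofReal ((F.card : ℝ) ^ (2 * (m + 1)) * (4 * δ) ^ m) := by
      have hc : (0 : ℝ) ≤ (F.card : ℝ) ^ (2 * (m + 1)) := by positivity
      have hd : (0 : ℝ) ≤ 4 * δ := by positivity
      rw [ENNReal.ofReal_mul hc, ENNReal.ofReal_pow hd, ENNReal.ofReal_pow (Nat.cast_nonneg _),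
        ENNReal.ofReal_natCast, Nat.cast_pow]
    rw [h3]
    have h4 : (F.card : ℝ) ^ (2 * (m + 1)) * (4 * δ) ^ m ≤ (4 : ℝ) ^ m * δ ^ t := by
      have h5 : (F.card : ℝ) ^ (2 * (m + 1)) ≤ (δ ^ (-s)) ^ (2 * (m + 1)) :=
        pow_le_pow_left₀ (by positivity) hF1 _
      have h6 : (δ ^ (-s)) ^ (2 * (m + 1)) * (4 * δ) ^ m = (4 : ℝ) ^ m * δ ^ t := by
        rw [mul_pow, ← Real.rpow_natCast (δ ^ (-s)), ← Real.rpow_mul hδ0.le,
          ← Real.rpow_natCast δ m, mul_left_comm, ← Real.rpow_add hδ0]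
        congr 2
        rw [ht]
        push_cast
        ring
      rw [← h6]
      gcongr
    have h7 : (F.card : ℝ) ^ (2 * (m + 1)) * (4 * δ) ^ m ≤ η := h4.trans h2.le
    calc ENNReal.ofReal ((F.card : ℝ) ^ (2 * (m + 1)) * (4 * δ) ^ m)
        ≤ ENNReal.ofReal η := ENNReal.ofReal_le_ofReal h7
      _ = η := ENNReal.ofReal_coe_nnreal
  by_contra hne
  have h1 : (interior (closure (Dif K m))).Nonempty := Set.nonempty_iff_ne_empty.2 hne
  have h2 : 0 < volume (interior (closure (Dif K m))) := isOpen_interior.measure_pos _ h1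
  have h3 := measure_mono (μ := volume) (interior_subset (s := closure (Dif K m)))
  rw [hzero] at h3
  exact absurd h2 (not_lt.2 h3)

end Pool.Agent.H458R5
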