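import Pool.Agent.H458R5.Thin

/-!
# Compact sets generating a proper subgroup are thin
-/

namespace Pool.Agent.H458R5

open Set Topology Cardinal Pointwise

/-- Preimages of closed nowhere dense sets under surjective linear maps. -/
theorem nowhereDense_preimage {m n : ℕ} (φ : (Fin n → ℝ) →ₗ[ℝ] (Fin m → ℝ))
    (hφ : Function.Surjective φ) {F : Set (Fin m → ℝ)} (hF : IsNowhereDense F) :
    IsNowhereDense (φ ⁻¹' F) := by
  have h1 : IsOpenMap φ := LinearMap.isOpenMap_of_finiteDimensional _ hφ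
  have h2 : Continuous φ := LinearMap.continuous_of_finiteDimensional _
  have h3 : IsNowhereDense (φ ⁻¹' (closure F)) := by
    rw [(isClosed_closure.preimage h2).isNowhereDense_iff,
      ← h1.preimage_interior_eq_interior_preimage h2, hF]
    rfl
  exact h3.mono (preimage_mono subset_closure)

/-- the differences with the first coordinate -/
noncomputable def diffMap (m : ℕ) : (Fin (m + 1) → ℝ) →ₗ[ℝ] (Fin m → ℝ) :=
  LinearMap.pi fun j =>
    (LinearMap.proj j.succ : (Fin (m + 1) → ℝ) →ₗ[ℝ] ℝ) -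
      (LinearMap.proj 0 : (Fin (m + 1) → ℝ) →ₗ[ℝ] ℝ)

theorem diffMap_surjective (m : ℕ) : Function.Surjective (diffMap m) := by
  intro w
  refine ⟨Fin.cons 0 w, ?_⟩
  ext j
  simp [diffMap]

theorem diffMap_apply {m : ℕ} (z : Fin (m + 1) → ℝ) (j : Fin m) :
    diffMap m z j = z j.succ - z 0 := by
  simp [diffMap]

/-- A sufficient condition for thinness. -/
theorem thin_of {K : Set ℝ} {m : ℕ} (h : IsNowhereDense {w : Fin m → ℝ |
    ∃ a b : Fin (m + 1) → ℝ, (∀ j, a j ∈ K) ∧ (∀ j, b j ∈ K) ∧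
      ∀ j : Fin m, w j = (a j.succ - b j.succ) - (a 0 - b 0)}) : Thin K := by
  refine ⟨m + 1, (nowhereDense_preimage (diffMap m) (diffMap_surjective m) h).mono ?_⟩
  rintro z ⟨x, hx⟩
  choose a ha b hb hz using hx
  refine ⟨a, b, ha, hb, fun j => ?_⟩
  rw [diffMap_apply, hz, hz]
  ring

/-- A compact set which generates a proper subgroup of the reals is thin. -/
theorem thin_of_closure_ne_top {K : Set ℝ} (hK : IsCompact K) (h : AddSubgroup.closure K ≠ ⊤) :
    Thin K := by
  have hsub' : ∀ {A B : Set ℝ}, IsCompact A → IsCompact B → IsCompact (A - B) := by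
    intro A B hA hB
    rw [sub_eq_add_neg]
    exact hA.add hB.neg
  have hF : IsCompact ((K - K) - (K - K)) := hsub' (hsub' hK hK) (hsub' hK hK)
  have hsub : (K - K) - (K - K) ⊆ (AddSubgroup.closure K : Set ℝ) := by
    rintro _ ⟨_, ⟨a, ha, b, hb, rfl⟩, _, ⟨c, hc, d, hd, rfl⟩, rfl⟩
    have hs : K ⊆ (AddSubgroup.closure K : Set ℝ) := AddSubgroup.subset_closure
    exact sub_mem (sub_mem (hs ha) (hs hb)) (sub_mem (hs hc) (hs hd))
  have hint : interior ((K - K) - (K - K)) = ∅ := by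
    by_contra hne
    obtain ⟨x, hx⟩ := Set.nonempty_iff_ne_empty.2 hne
    have h1 : (AddSubgroup.closure K : Set ℝ) ∈ 𝓝 x :=
      Filter.mem_of_superset (mem_interior_iff_mem_nhds.1 hx) hsub
    have h2 : IsOpen (AddSubgroup.closure K : Set ℝ) := AddSubgroup.isOpen_of_mem_nhds _ h1
    have h3 : IsClosed (AddSubgroup.closure K : Set ℝ) := AddSubgroup.isClosed_of_isOpen _ h2
    have h4 := IsClopen.eq_univ ⟨h3, h2⟩ ⟨0, zero_mem _⟩
    exact h (SetLike.coe_injective (by rw [h4]; rfl))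
  refine thin_of (m := 1) ?_
  have h5 : IsClosed {w : Fin 1 → ℝ | w 0 ∈ (K - K) - (K - K)} :=
    hF.isClosed.preimage (continuous_apply 0)
  have h6 : IsNowhereDense {w : Fin 1 → ℝ | w 0 ∈ (K - K) - (K - K)} := by
    rw [h5.isNowhereDense_iff]
    have h7 : IsOpenMap (fun w : Fin 1 → ℝ => w 0) := isOpenMap_eval 0
    have h8 := h7.preimage_interior_eq_interior_preimage (continuous_apply 0)
      ((K - K) - (K - K))
    rw [hint] at h8
    exact h8.symm
  refine h6.mono ?_
  rintro w ⟨a, b, ha, hb, hw⟩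
  have h9 := hw 0
  exact ⟨a 1 - b 1, ⟨a 1, ha 1, b 1, hb 1, rfl⟩, a 0 - b 0, ⟨a 0, ha 0, b 0, hb 0, rfl⟩, h9.symm⟩

theorem IsCantorSet.isCompact {K : Set ℝ} (hK : IsCantorSet K) : IsCompact K := by
  obtain ⟨e⟩ := hK
  rw [isCompact_iff_compactSpace]
  exact e.symm.compactSpace

end Pool.Agent.H458R5
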