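import Mathlib

/-!
# A scheme for independent sets of reals

Given dense open sets of reals and nowhere dense relations on the reals, there is a map from the
Cantor space to the intersection of the open sets such that no injective tuple of points of the
Cantor space is mapped to a tuple belonging to one of the relations.
-/

namespace Pool.Agent.H458R5

open Set Topology Cardinal

/-- One step: shrink the open sets of a level and split each of them into two. -/
theorem exists_step {k : ℕ} (B : (Fin k → Bool) → Set ℝ) (hB : ∀ σ, IsOpen (B σ))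
    (hB' : ∀ σ, (B σ).Nonempty) {W : Set ((Fin (k + 1) → Bool) → ℝ)} (hW : IsOpen W)
    (hW' : Dense W) :
    ∃ B' : (Fin (k + 1) → Bool) → Set ℝ, (∀ σ, IsOpen (B' σ)) ∧ (∀ σ, (B' σ).Nonempty) ∧
      (∀ σ, IsCompact (closure (B' σ))) ∧ (∀ σ, closure (B' σ) ⊆ B (σ ∘ Fin.castSucc)) ∧
      ∀ z, (∀ σ, z σ ∈ B' σ) → z ∈ W := by
  classical
  set P : Set ((Fin (k + 1) → Bool) → ℝ) := Set.pi Set.univ fun σ => B (σ ∘ Fin.castSucc) with hP
  have hPo : IsOpen P := isOpen_set_pi Set.finite_univ fun σ _ => hB _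
  have hPn : P.Nonempty := Set.univ_pi_nonempty_iff.2 fun σ => hB' _
  obtain ⟨z, hzP, hzW⟩ := hW'.inter_open_nonempty P hPo hPn
  obtain ⟨ε, hε, hball⟩ := Metric.isOpen_iff.1 (hPo.inter hW) z ⟨hzP, hzW⟩
  have hclos : ∀ σ, closure (Metric.ball (z σ) (ε / 2)) ⊆ Metric.closedBall (z σ) (ε / 2) :=
    fun σ => Metric.closure_ball_subset_closedBall
  refine ⟨fun σ => Metric.ball (z σ) (ε / 2), fun σ => Metric.isOpen_ball,
    fun σ => ⟨z σ, Metric.mem_ball_self (half_pos hε)⟩, fun σ => ?_, fun σ y hy => ?_,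
    fun w hw => ?_⟩
  · exact (isCompact_closedBall _ _).of_isClosed_subset isClosed_closure (hclos σ)
  · have h1 : y ∈ Metric.ball (z σ) ε :=
      Metric.closedBall_subset_ball (half_lt_self hε) (hclos σ hy)
    have h2 : Function.update z σ y ∈ Metric.ball z ε := by
      rw [Metric.mem_ball, dist_pi_lt_iff hε]
      intro τ
      by_cases hτ : τ = σ
      · subst hτ
        rw [Function.update_self]
        exact h1
      · rw [Function.update_of_ne hτ, dist_self]
        exact hε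
    have h3 := (hball h2).1 σ (Set.mem_univ _)
    simpa only [Function.update_self] using h3
  · refine (hball ?_).2
    rw [Metric.mem_ball, dist_pi_lt_iff hε]
    intro σ
    exact lt_trans (hw σ) (half_lt_self hε)

/-- The dense open sets of the scheme. -/
def Wset (U : ℕ → Set ℝ) (N : ℕ → ℕ) (R : ∀ i, Set (Fin (N i) → ℝ)) (k : ℕ) :
    Set ((Fin k → Bool) → ℝ) :=
  (⋂ p : (Fin k → Bool) × Fin k, {z | z p.1 ∈ U p.2}) ∩
    ⋂ q : Σ i : Fin k, {s : Fin (N i) → (Fin k → Bool) // Function.Injective s},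
      {z | (fun j => z (q.2.1 j)) ∈ (closure (R q.1))ᶜ}

theorem isOpen_Wset {U : ℕ → Set ℝ} (hU : ∀ k, IsOpen (U k)) (N : ℕ → ℕ)
    (R : ∀ i, Set (Fin (N i) → ℝ)) (k : ℕ) : IsOpen (Wset U N R k) := by
  refine IsOpen.inter (isOpen_iInter_of_finite fun p => ?_) (isOpen_iInter_of_finite fun q => ?_)
  · exact (hU _).preimage (continuous_apply _)
  · exact isClosed_closure.isOpen_compl.preimage (continuous_pi fun j => continuous_apply _)

theorem dense_Wset {U : ℕ → Set ℝ} (hU : ∀ k, IsOpen (U k)) (hU' : ∀ k, Dense (U k)) (N : ℕ → ℕ)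
    {R : ∀ i, Set (Fin (N i) → ℝ)} (hR : ∀ i, IsNowhereDense (R i)) (k : ℕ) :
    Dense (Wset U N R k) := by
  refine Dense.inter_of_isOpen_left ?_ ?_ (isOpen_iInter_of_finite fun p =>
    (hU _).preimage (continuous_apply _))
  · refine dense_iInter_of_isOpen (fun p => (hU _).preimage (continuous_apply _)) fun p => ?_
    exact (hU' p.2).preimage (isOpenMap_eval p.1)
  · refine dense_iInter_of_isOpen (fun q => isClosed_closure.isOpen_compl.preimage
      (continuous_pi fun j => continuous_apply _)) fun q => ?_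
    have h1 : IsOpenMap (LinearMap.funLeft ℝ ℝ q.2.1) :=
      LinearMap.isOpenMap_of_finiteDimensional _
        (LinearMap.funLeft_surjective_of_injective ℝ ℝ q.2.1 q.2.2)
    exact (interior_eq_empty_iff_dense_compl.1 (hR q.1)).preimage h1

/-- **The scheme.** -/
theorem exists_scheme {U : ℕ → Set ℝ} (hU : ∀ k, IsOpen (U k)) (hU' : ∀ k, Dense (U k))
    (N : ℕ → ℕ) {R : ∀ i, Set (Fin (N i) → ℝ)} (hR : ∀ i, IsNowhereDense (R i)) :
    ∃ f : (ℕ → Bool) → ℝ, (∀ α k, f α ∈ U k) ∧
      ∀ i (a : Fin (N i) → (ℕ → Bool)), Function.Injective a → (fun j => f (a j)) ∉ R i := by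
  classical
  have hstep : ∀ k, ∀ B : {B : (Fin k → Bool) → Set ℝ // (∀ σ, IsOpen (B σ)) ∧
      ∀ σ, (B σ).Nonempty}, ∃ B' : {B : (Fin (k + 1) → Bool) → Set ℝ // (∀ σ, IsOpen (B σ)) ∧
      ∀ σ, (B σ).Nonempty}, (∀ σ, IsCompact (closure (B'.1 σ))) ∧
      (∀ σ, closure (B'.1 σ) ⊆ B.1 (σ ∘ Fin.castSucc)) ∧
      ∀ z, (∀ σ, z σ ∈ B'.1 σ) → z ∈ Wset U N R (k + 1) := by
    intro k B
    obtain ⟨B', h1, h2, h3, h4, h5⟩ := exists_step B.1 B.2.1 B.2.2
      (isOpen_Wset hU N R (k + 1)) (dense_Wset hU hU' N hR (k + 1))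
    exact ⟨⟨B', h1, h2⟩, h3, h4, h5⟩
  choose step h3 h4 h5 using hstep
  let T : ∀ k, {B : (Fin k → Bool) → Set ℝ // (∀ σ, IsOpen (B σ)) ∧ ∀ σ, (B σ).Nonempty} :=
    fun k => Nat.rec ⟨fun _ => Set.univ, fun _ => isOpen_univ, fun _ => ⟨0, Set.mem_univ _⟩⟩
      (fun k b => step k b) k
  have hT : ∀ k, T (k + 1) = step k (T k) := fun k => rfl
  let r : (ℕ → Bool) → ∀ k, (Fin k → Bool) := fun α k i => α i
  have hr : ∀ α k, (r α (k + 1)) ∘ Fin.castSucc = r α k := fun α k => rfl
  have hne : ∀ α, (⋂ k, closure ((T (k + 1)).1 (r α (k + 1)))).Nonempty := by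
    intro α
    refine IsCompact.nonempty_iInter_of_sequence_nonempty_isCompact_isClosed _ (fun k => ?_)
      (fun k => ((T (k + 1)).2.2 _).closure) ?_ fun k => isClosed_closure
    · rw [hT (k + 1)]
      exact (h4 (k + 1) (T (k + 1)) (r α (k + 2))).trans subset_closure
    · rw [hT 0]
      exact h3 0 (T 0) _
  choose f hf using hne
  have hfT : ∀ α k, f α ∈ (T k).1 (r α k) := by
    intro α k
    have h6 := Set.mem_iInter.1 (hf α) k
    rw [hT k] at h6
    exact h4 k (T k) (r α (k + 1)) h6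
  -- points of a level
  have hlev : ∀ k (z : (Fin (k + 1) → Bool) → ℝ), (∀ σ, z σ ∈ (T (k + 1)).1 σ) →
      z ∈ Wset U N R (k + 1) := by
    intro k z hz
    rw [hT k] at hz
    exact h5 k (T k) z hz
  have hpt : ∀ k (σ : Fin k → Bool), ∃ x, x ∈ (T k).1 σ := fun k σ => (T k).2.2 σ
  choose pt hpt using hpt
  refine ⟨f, fun α k => ?_, fun i a ha hmem => ?_⟩
  · let z : (Fin (k + 1) → Bool) → ℝ := fun σ => if σ = r α (k + 1) then f α else pt (k + 1) σ
    have hz : ∀ σ, z σ ∈ (T (k + 1)).1 σ := by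
      intro σ
      by_cases hσ : σ = r α (k + 1)
      · simp only [z, if_pos hσ]
        rw [hσ]
        exact hfT α (k + 1)
      · simp only [z, if_neg hσ]
        exact hpt (k + 1) σ
    have h6 := Set.mem_iInter.1 (hlev k z hz).1 (r α (k + 1), Fin.last k)
    simpa [z] using h6
  · -- a level at which the restrictions are different
    have h8 : ∀ p : Fin (N i) × Fin (N i), ∃ m : ℕ, p.1 ≠ p.2 → a p.1 m ≠ a p.2 m := by
      intro p
      by_cases hp : p.1 = p.2
      · exact ⟨0, fun h => absurd hp h⟩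
      · have h9 : a p.1 ≠ a p.2 := fun h => hp (ha h)
        obtain ⟨m, hm⟩ := Function.ne_iff.1 h9
        exact ⟨m, fun _ => hm⟩
    choose m hm using h8
    obtain ⟨k, hk⟩ : ∃ k, k = i + Finset.univ.sup m := ⟨_, rfl⟩
    have hik : i < k + 1 := by omega
    have hmk : ∀ p, m p < k + 1 := by
      intro p
      have h9 : m p ≤ Finset.univ.sup m := Finset.le_sup (Finset.mem_univ p)
      omega
    have hinj : Function.Injective fun j => r (a j) (k + 1) := by
      intro j j' hjj
      by_contra hne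
      exact hm (j, j') hne (congrFun hjj ⟨m (j, j'), hmk _⟩)
    let z : (Fin (k + 1) → Bool) → ℝ := fun σ =>
      if h : ∃ j, σ = r (a j) (k + 1) then f (a h.choose) else pt (k + 1) σ
    have hz : ∀ σ, z σ ∈ (T (k + 1)).1 σ := by
      intro σ
      by_cases hσ : ∃ j, σ = r (a j) (k + 1)
      · simp only [z, dif_pos hσ]
        have h9 := hσ.choose_spec
        have h10 := hfT (a hσ.choose) (k + 1)
        rw [← h9] at h10
        exact h10
      · simp only [z, dif_neg hσ]
        exact hpt (k + 1) σ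
    have hzj : ∀ j, z (r (a j) (k + 1)) = f (a j) := by
      intro j
      have hσ : ∃ j', r (a j) (k + 1) = r (a j') (k + 1) := ⟨j, rfl⟩
      simp only [z, dif_pos hσ]
      have h9 := hσ.choose_spec
      rw [← hinj h9]
    have h6 := Set.mem_iInter.1 (hlev k z hz).2 ⟨⟨i, hik⟩, ⟨fun j => r (a j) (k + 1), hinj⟩⟩
    have h11 : (fun j => f (a j)) ∈ (closure (R i))ᶜ := by
      have h12 : (fun j => z (r (a j) (k + 1))) ∈ (closure (R i))ᶜ := h6
      simpa only [hzj] using h12
    exact h11 (subset_closure hmem)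

end Pool.Agent.H458R5
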