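import Pool.Agent.H458R5.Avoid

/-!
# Thin sets of reals
-/

namespace Pool.Agent.H458R5

open Set Topology Cardinal

/-- A set `U` of reals is thin if, for some `n`, the set of all `n`-tuples of reals which lie in a
single translate of the difference set `U - U` is nowhere dense in `ℝ ^ n`. -/
def Thin (U : Set ℝ) : Prop :=
  ∃ n : ℕ, IsNowhereDense {z : Fin n → ℝ | ∃ x : ℝ, ∀ j, ∃ a ∈ U, ∃ b ∈ U, z j = x + (a - b)}

/-- A Cantor set of reals. -/
def IsCantorSet (K : Set ℝ) : Prop := Nonempty (K ≃ₜ (ℕ → Bool))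

/-- There is a nonmeagre set of reals all of whose translates meet `K` in a relatively meagre
set. -/
def SmallTraces (K : Set ℝ) : Prop :=
  ∃ X : Set ℝ, ¬ IsMeagre X ∧ ∀ t : ℝ, IsMeagre {k : K | (k : ℝ) - t ∈ X}

/-- Each nonempty portion of `K` contains a nonempty thin portion. -/
def LocallyThin (K : Set ℝ) : Prop :=
  ∀ O : Set ℝ, IsOpen O → (K ∩ O).Nonempty →
    ∃ O' ⊆ O, IsOpen O' ∧ (K ∩ O').Nonempty ∧ Thin (K ∩ O')

theorem Thin.mono {U V : Set ℝ} (h : U ⊆ V) (hV : Thin V) : Thin U := by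
  obtain ⟨n, hn⟩ := hV
  refine ⟨n, hn.mono ?_⟩
  rintro z ⟨x, hx⟩
  refine ⟨x, fun j => ?_⟩
  obtain ⟨a, ha, b, hb, hz⟩ := hx j
  exact ⟨a, h ha, b, h hb, hz⟩

theorem thin_empty : Thin ∅ := by
  refine ⟨1, ?_⟩
  have h1 : {z : Fin 1 → ℝ | ∃ x : ℝ, ∀ j, ∃ a ∈ (∅ : Set ℝ), ∃ b ∈ (∅ : Set ℝ),
      z j = x + (a - b)} = ∅ := by
    ext z
    simp
  rw [h1]
  exact isNowhereDense_empty

theorem Thin.locallyThin {K : Set ℝ} (h : Thin K) : LocallyThin K :=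
  fun O hO hne => ⟨O, Subset.rfl, hO, hne, h.mono inter_subset_left⟩

theorem exists_ne_cantor {V : Set (ℕ → Bool)} (hV : IsOpen V) {p : ℕ → Bool} (hp : p ∈ V) :
    ∃ q ∈ V, q ≠ p := by
  classical
  have h1 : Filter.Tendsto (fun n => Function.update p n (!(p n))) Filter.atTop (𝓝 p) := by
    rw [tendsto_pi_nhds]
    intro i
    refine tendsto_const_nhds.congr' ?_
    filter_upwards [Filter.eventually_gt_atTop i] with n hn
    rw [Function.update_of_ne hn.ne]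
  obtain ⟨n, hn⟩ := (h1.eventually (hV.mem_nhds hp)).exists
  refine ⟨_, hn, fun h => ?_⟩
  have h2 := congrFun h n
  rw [Function.update_self] at h2
  simp at h2

theorem IsCantorSet.exists_ne {K : Set ℝ} (hK : IsCantorSet K) {V : Set K} (hV : IsOpen V) {p : K}
    (hp : p ∈ V) : ∃ q ∈ V, q ≠ p := by
  obtain ⟨e⟩ := hK
  obtain ⟨q, hq, hqp⟩ := exists_ne_cantor (V := e.symm ⁻¹' V) (hV.preimage e.symm.continuous)
    (p := e p) (by simpa using hp)
  exact ⟨e.symm q, hq, fun h => hqp (by rw [← h, e.apply_symm_apply])⟩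

/-- **The main theorem.** -/
theorem smallTraces_of_locallyThin {K : Set ℝ} (hK : IsCantorSet K) (hT : LocallyThin K) :
    SmallTraces K := by
  classical
  have hb := TopologicalSpace.isBasis_countableBasis ℝ
  obtain ⟨e, he⟩ := ((TopologicalSpace.countable_countableBasis ℝ).insert
    (∅ : Set ℝ)).exists_eq_range (Set.insert_nonempty _ _)
  have h1 : ∀ i, ∃ P : Set ℝ, Thin P ∧ (e i ∈ TopologicalSpace.countableBasis ℝ →
      (K ∩ e i).Nonempty → ∃ O' ⊆ e i, IsOpen O' ∧ (K ∩ O').Nonempty ∧ P = K ∩ O') := by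
    intro i
    by_cases hi : e i ∈ TopologicalSpace.countableBasis ℝ ∧ (K ∩ e i).Nonempty
    · obtain ⟨O', h1, h2, h3, h4⟩ := hT (e i) (hb.isOpen hi.1) hi.2
      exact ⟨K ∩ O', h4, fun _ _ => ⟨O', h1, h2, h3, rfl⟩⟩
    · exact ⟨∅, thin_empty, fun h2 h3 => absurd ⟨h2, h3⟩ hi⟩
  choose P hP1 hP2 using h1
  choose N hN using hP1
  let D : ℕ → Set ℝ := fun i => {d | ∃ a ∈ P i, ∃ b ∈ P i, d = a - b}
  have hD : ∀ i, IsNowhereDense (Tuples (N i) (D i)) := by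
    intro i
    refine (hN i).mono ?_
    rintro z ⟨x, hx⟩
    refine ⟨x, fun j => ?_⟩
    obtain ⟨a, ha, b, hb, hz⟩ := hx j
    exact ⟨a, ha, b, hb, by rw [← hz]; ring⟩
  have hsymm : ∀ i x, x ∈ D i → -x ∈ D i := by
    rintro i x ⟨a, ha, b, hb, rfl⟩
    exact ⟨b, hb, a, ha, by ring⟩
  obtain ⟨X, hX1, hX2⟩ := exists_set hD hsymm
  refine ⟨X, hX1, fun t => IsNowhereDense.isMeagre ?_⟩
  set A : Set K := {k : K | (k : ℝ) - t ∈ X} with hA
  by_contra hcon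
  have hne : (interior (closure A)).Nonempty := Set.nonempty_iff_ne_empty.2 hcon
  obtain ⟨p, hp⟩ := hne
  obtain ⟨O, hO, hOeq⟩ := isOpen_induced_iff.1 (isOpen_interior : IsOpen (interior (closure A)))
  have hpO : (p : ℝ) ∈ O := by
    have h2 : p ∈ Subtype.val ⁻¹' O := by rw [hOeq]; exact hp
    exact h2
  obtain ⟨b, hb1, hpb, hbO⟩ := hb.exists_subset_of_mem_open hpO hO
  have hbr : b ∈ range e := by rw [← he]; exact Or.inr hb1
  obtain ⟨i, rfl⟩ := hbr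
  obtain ⟨O', h1, h2, h3, h4⟩ := hP2 i hb1 ⟨p, p.2, hpb⟩
  set V : Set K := Subtype.val ⁻¹' O' with hV
  have hVo : IsOpen V := h2.preimage continuous_subtype_val
  have hVsub : V ⊆ closure A := by
    intro k hk
    have h5 : k ∈ Subtype.val ⁻¹' O := hbO (h1 hk)
    rw [hOeq] at h5
    exact interior_subset h5
  have hVne : V.Nonempty := by
    obtain ⟨k, hk1, hk2⟩ := h3
    exact ⟨⟨k, hk1⟩, hk2⟩
  -- a nonempty open subset of `V` meets `A`
  have hmeet : ∀ V' ⊆ V, IsOpen V' → V'.Nonempty → (V' ∩ A).Nonempty := by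
    rintro V' hV' hV'o ⟨k, hk⟩
    exact mem_closure_iff.1 (hVsub (hV' hk)) V' hV'o hk
  obtain ⟨q, hqV, hqA⟩ := hmeet V Subset.rfl hVo hVne
  obtain ⟨r, hrV, hrq⟩ := hK.exists_ne hVo hqV
  obtain ⟨s, ⟨hsV, hsq⟩, hsA⟩ := hmeet (V \ {q}) sdiff_subset (hVo.sdiff isClosed_singleton)
    ⟨r, hrV, hrq⟩
  have hne' : (s : ℝ) - t ≠ (q : ℝ) - t := by
    intro h5
    exact hsq (Subtype.ext (by linarith))
  refine hX2 _ hsA _ hqA hne' i ⟨s, ?_, q, ?_, by ring⟩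
  · rw [h4]; exact ⟨s.2, hsV⟩
  · rw [h4]; exact ⟨q.2, hqV⟩

end Pool.Agent.H458R5
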